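import Mathlib

set_option autoImplicit false

namespace Pool.Agent.H347W

/-- A strict weakly abelian cone of a group. -/
structure IsCone {G : Type} [Group G] (P : Set G) : Prop where
  one : (1 : G) ∉ P
  mul : ∀ a ∈ P, ∀ b ∈ P, a * b ∈ P
  conj : ∀ a ∈ P, ∀ x : G, x⁻¹ * a * x ∈ P
  wa : ∀ a ∈ P, ∀ x : G, (x⁻¹ * a * x)⁻¹ * a ^ 2 ∈ P

section
variable {G : Type} [Group G]

lemma IsCone.conj' {P : Set G} (hP : IsCone P) {a : G} (ha : a ∈ P) (x : G) :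
    x * a * x⁻¹ ∈ P := by
  have := hP.conj a ha x⁻¹
  simpa using this

lemma IsCone.pow {P : Set G} (hP : IsCone P) {a : G} (ha : a ∈ P) (n : ℕ) (hn : 1 ≤ n) :
    a ^ n ∈ P := by
  induction n, hn using Nat.le_induction with
  | base => simpa using ha
  | succ n _ ih => rw [pow_succ]; exact hP.mul _ ih _ ha

lemma IsCone.not_both {P : Set G} (hP : IsCone P) {a : G} (ha : a ∈ P) (hb : a⁻¹ ∈ P) :
    False := by
  have := hP.mul _ ha _ hb
  rw [mul_inv_cancel] at this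
  exact hP.one this

/-- Maximality of a cone. -/
def IsMax (P : Set G) : Prop := ∀ Q : Set G, IsCone Q → P ⊆ Q → Q ⊆ P

lemma extend {P : Set G} (hP : IsCone P) (hmax : IsMax P) {C : Set G}
    (c1 : ∀ a ∈ C, ∀ b ∈ C, a * b ∈ C)
    (c2 : ∀ a ∈ C, ∀ x : G, x⁻¹ * a * x ∈ C)
    (c3 : ∀ a ∈ C, ∀ x : G, (x⁻¹ * a * x)⁻¹ * a ^ 2 ∈ C)
    (c4 : ∀ x ∈ P, ∀ y ∈ C, ∀ s : G, (s⁻¹ * (x * y) * s)⁻¹ * (x * y) ^ 2 ∈ P ∨
      (s⁻¹ * (x * y) * s)⁻¹ * (x * y) ^ 2 ∈ C ∨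
      ∃ x' ∈ P, ∃ y' ∈ C, (s⁻¹ * (x * y) * s)⁻¹ * (x * y) ^ 2 = x' * y')
    (c5 : ∀ y ∈ C, y⁻¹ ∉ P) (c6 : (1 : G) ∉ C) : C ⊆ P := by
  have key : IsCone ({z | z ∈ P ∨ z ∈ C ∨ ∃ x ∈ P, ∃ y ∈ C, z = x * y} : Set G) := by
    refine ⟨?_, ?_, ?_, ?_⟩
    · rintro (h | h | ⟨x, hx, y, hy, h⟩)
      · exact hP.one h
      · exact c6 h
      · have : y⁻¹ = x := by
          rw [inv_eq_iff_mul_eq_one]
          have h2 : y = x⁻¹ := by
            rw [eq_comm, inv_eq_iff_mul_eq_one]; exact h.symm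
          rw [h2]; simp
        exact c5 y hy (this ▸ hx)
    · rintro a (ha | ha | ⟨x, hx, y, hy, rfl⟩) b (hb | hb | ⟨x', hx', y', hy', rfl⟩)
      · exact Or.inl (hP.mul _ ha _ hb)
      · exact Or.inr (Or.inr ⟨a, ha, b, hb, rfl⟩)
      · exact Or.inr (Or.inr ⟨a * x', hP.mul _ ha _ hx', y', hy', by group⟩)
      · exact Or.inr (Or.inr ⟨a * b * a⁻¹, hP.conj' hb a, a, ha, by group⟩)
      · exact Or.inr (Or.inl (c1 _ ha _ hb))
      · exact Or.inr (Or.inr ⟨a * x' * a⁻¹, hP.conj' hx' a, a * y', c1 _ ha _ hy', by group⟩)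
      · exact Or.inr (Or.inr ⟨x * (y * b * y⁻¹), hP.mul _ hx _ (hP.conj' hb y), y, hy, by group⟩)
      · exact Or.inr (Or.inr ⟨x, hx, y * b, c1 _ hy _ hb, by group⟩)
      · exact Or.inr (Or.inr ⟨x * (y * x' * y⁻¹), hP.mul _ hx _ (hP.conj' hx' y), y * y',
          c1 _ hy _ hy', by group⟩)
    · rintro a (ha | ha | ⟨x, hx, y, hy, rfl⟩) s
      · exact Or.inl (hP.conj _ ha s)
      · exact Or.inr (Or.inl (c2 _ ha s))
      · exact Or.inr (Or.inr ⟨s⁻¹ * x * s, hP.conj _ hx s, s⁻¹ * y * s, c2 _ hy s, by group⟩)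
    · rintro a (ha | ha | ⟨x, hx, y, hy, rfl⟩) s
      · exact Or.inl (hP.wa _ ha s)
      · exact Or.inr (Or.inl (c3 _ ha s))
      · exact c4 x hx y hy s
  intro y hy
  exact hmax _ key (fun z hz => Or.inl hz) (Or.inr (Or.inl hy))

/-- Every cone is contained in a maximal one. -/
lemma exists_max {P : Set G} (hP : IsCone P) : ∃ M : Set G, P ⊆ M ∧ IsCone M ∧ IsMax M := by
  obtain ⟨M, hPM, hM⟩ := zorn_subset_nonempty {Q : Set G | IsCone Q} (by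
    intro c hc hchain hne
    refine ⟨⋃₀ c, ?_, fun s hs => Set.subset_sUnion_of_mem hs⟩
    refine ⟨?_, ?_, ?_, ?_⟩
    · rintro ⟨s, hs, h1⟩
      exact (hc hs).one h1
    · rintro a ⟨s, hs, ha⟩ b ⟨s', hs', hb⟩
      rcases hchain.total hs hs' with h | h
      · exact ⟨s', hs', (hc hs').mul _ (h ha) _ hb⟩
      · exact ⟨s, hs, (hc hs).mul _ ha _ (h hb)⟩
    · rintro a ⟨s, hs, ha⟩ x
      exact ⟨s, hs, (hc hs).conj _ ha x⟩
    · rintro a ⟨s, hs, ha⟩ x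
      exact ⟨s, hs, (hc hs).wa _ ha x⟩) P hP
  refine ⟨M, hPM, hM.prop, ?_⟩
  intro Q hQ hMQ
  exact hM.le_of_ge hQ hMQ

/-- If every maximal cone decides every element, every weakly abelian partial order extends to a
weakly abelian total order. -/
lemma total_of_max (htot : ∀ M : Set G, IsCone M → IsMax M → ∀ g : G, g = 1 ∨ g ∈ M ∨ g⁻¹ ∈ M)
    (P : Set G) (p1 : (1 : G) ∈ P) (pm : ∀ a ∈ P, ∀ b ∈ P, a * b ∈ P)
    (pa : ∀ a ∈ P, a⁻¹ ∈ P → a = 1) (pc : ∀ a ∈ P, ∀ x : G, x⁻¹ * a * x ∈ P)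
    (pw : ∀ a ∈ P, ∀ x : G, (x⁻¹ * a * x)⁻¹ * a ^ 2 ∈ P) :
    ∃ Q : Set G, P ⊆ Q ∧ (1 : G) ∈ Q ∧ (∀ a ∈ Q, ∀ b ∈ Q, a * b ∈ Q) ∧
      (∀ a ∈ Q, a⁻¹ ∈ Q → a = 1) ∧ (∀ a ∈ Q, ∀ x : G, x⁻¹ * a * x ∈ Q) ∧
      (∀ a : G, a ∈ Q ∨ a⁻¹ ∈ Q) ∧
      (∀ a ∈ Q, ∀ x : G, (x⁻¹ * a * x)⁻¹ * a ^ 2 ∈ Q) := by
  have hP' : IsCone (P \ {1}) := by
    refine ⟨by simp, ?_, ?_, ?_⟩
    · rintro a ⟨ha, ha1⟩ b ⟨hb, hb1⟩
      refine ⟨pm _ ha _ hb, ?_⟩
      intro h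
      have : b = a⁻¹ := by
        rw [eq_comm, inv_eq_iff_mul_eq_one]; exact h
      exact ha1 (pa a ha (this ▸ hb))
    · rintro a ⟨ha, ha1⟩ x
      refine ⟨pc _ ha x, ?_⟩
      intro h
      apply ha1
      have h' : x⁻¹ * a * x = 1 := h
      have : a = x * 1 * x⁻¹ := by rw [← h']; group
      simpa using this
    · rintro a ⟨ha, ha1⟩ x
      refine ⟨pw _ ha x, ?_⟩
      intro h
      have h' : (x⁻¹ * a * x)⁻¹ * a ^ 2 = 1 := h
      have h2 : x⁻¹ * a * x = a ^ 2 := by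
        have := (inv_mul_eq_one).1 h'
        exact this
      apply ha1
      have h3 := pw a ha (x * x)
      have h4 : (x * x)⁻¹ * a * (x * x) = a ^ 4 := by
        have : (x * x)⁻¹ * a * (x * x) = x⁻¹ * (x⁻¹ * a * x) * x := by group
        rw [this, h2]
        have : x⁻¹ * a ^ 2 * x = (x⁻¹ * a * x) ^ 2 := by
          rw [pow_two, pow_two]; group
        rw [this, h2, ← pow_mul]
      rw [h4] at h3
      have h5 : (a ^ 4)⁻¹ * a ^ 2 = (a * a)⁻¹ := by group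
      rw [h5] at h3
      have h6 := pa (a * a) (pm _ ha _ ha) h3
      have h7 : a⁻¹ = a := by
        rw [inv_eq_iff_mul_eq_one]; exact h6
      exact pa a ha (h7.symm ▸ ha)
  obtain ⟨M, hPM, hM, hmax⟩ := exists_max hP'
  refine ⟨M ∪ {1}, ?_, Or.inr rfl, ?_, ?_, ?_, ?_, ?_⟩
  · intro a ha
    by_cases h : a = 1
    · exact Or.inr h
    · exact Or.inl (hPM ⟨ha, h⟩)
  · rintro a (ha | ha) b (hb | hb)
    · exact Or.inl (hM.mul _ ha _ hb)
    · rw [Set.mem_singleton_iff] at hb; subst hb; simpa using Or.inr ha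
    · rw [Set.mem_singleton_iff] at ha; subst ha; simpa using Or.inr hb
    · rw [Set.mem_singleton_iff] at ha hb; subst ha; subst hb; simp
  · rintro a (ha | ha) (hb | hb)
    · exact (hM.not_both ha hb).elim
    · rw [Set.mem_singleton_iff, inv_eq_one] at hb; exact hb
    · exact ha
    · exact ha
  · rintro a (ha | ha) x
    · exact Or.inl (hM.conj _ ha x)
    · rw [Set.mem_singleton_iff] at ha; subst ha; right; simp
  · intro a
    rcases htot M hM hmax a with h | h | h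
    · left; right; exact h
    · left; left; exact h
    · right; left; exact h
  · rintro a (ha | ha) x
    · exact Or.inl (hM.wa _ ha x)
    · rw [Set.mem_singleton_iff] at ha; subst ha; right; simp

end

end Pool.Agent.H347W
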