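import Mathlib

set_option autoImplicit false

/-!
# A group in which weakly abelian partial orders extend, but not all partial orders do

`RingData R` : the data on a commutative domain `R` used for the construction
(`R` will be the localisation of `ℚ[t]` at the places `t = 1` and `t = -2`).
`Gp D` : the semidirect product of the Heisenberg group over `R` with the cyclic group
generated by `t`, acting by `(a, b, c) ↦ (t a, t b, t² c)`.
-/

namespace Pool.Agent.H347W

structure RingData (R : Type) [CommRing R] where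
  e : ℤ → R
  e_zero : e 0 = 1
  e_add : ∀ k l, e (k + l) = e k * e l
  half : R
  two_half : 2 * half = 1
  ε : R →+* ℚ
  d : R → ℚ
  d_add : ∀ r s, d (r + s) = d r + d s
  d_mul : ∀ r s, d (r * s) = ε r * d s + d r * ε s
  ε_e : ∀ k, ε (e k) = 1
  d_e : ∀ k : ℤ, d (e k) = k
  ker : ∀ r, ε r = 0 → ∀ k : ℤ, k ≠ 0 → ∃ s, r = (1 - e k) * s
  dvd : ∀ f, ε f ≠ 0 → ∃ m : ℕ, f ∣ (2 + e 1) ^ m
  unit4 : IsUnit (4 - e 1)
  δ : R →+* ℚ
  δ_e : δ (e 1) = -2

variable {R : Type} [CommRing R]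

namespace RingData

variable (D : RingData R)

lemma e_neg_mul (k : ℤ) : D.e (-k) * D.e k = 1 := by
  rw [← D.e_add, neg_add_cancel, D.e_zero]

lemma e_mul_neg (k : ℤ) : D.e k * D.e (-k) = 1 := by
  rw [mul_comm, D.e_neg_mul]

lemma d_zero : D.d 0 = 0 := by
  have := D.d_add 0 0
  simpa using this

lemma d_neg (r : R) : D.d (-r) = - D.d r := by
  have := D.d_add r (-r)
  rw [add_neg_cancel, D.d_zero] at this
  linarith

lemma d_sub (r s : R) : D.d (r - s) = D.d r - D.d s := by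
  rw [sub_eq_add_neg, D.d_add, D.d_neg]; ring

lemma d_one : D.d 1 = 0 := by
  have := D.d_e 0
  rw [D.e_zero] at this
  simpa using this

end RingData

/-- The semidirect product of the Heisenberg group with `⟨t⟩`. -/
@[ext] structure Gp (D : RingData R) where
  k : ℤ
  a : R
  b : R
  c : R

namespace Gp

variable {D : RingData R}

instance : Mul (Gp D) :=
  ⟨fun x y => ⟨x.k + y.k, x.a + D.e x.k * y.a, x.b + D.e x.k * y.b,
    x.c + D.e x.k ^ 2 * y.c + D.e x.k * (x.a * y.b - x.b * y.a)⟩⟩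

instance : One (Gp D) := ⟨⟨0, 0, 0, 0⟩⟩

instance : Inv (Gp D) :=
  ⟨fun x => ⟨-x.k, - (D.e (-x.k) * x.a), - (D.e (-x.k) * x.b), - (D.e (-x.k) ^ 2 * x.c)⟩⟩

@[simp] lemma mul_k (x y : Gp D) : (x * y).k = x.k + y.k := rfl
@[simp] lemma mul_a (x y : Gp D) : (x * y).a = x.a + D.e x.k * y.a := rfl
@[simp] lemma mul_b (x y : Gp D) : (x * y).b = x.b + D.e x.k * y.b := rfl
@[simp] lemma mul_c (x y : Gp D) : (x * y).c =
    x.c + D.e x.k ^ 2 * y.c + D.e x.k * (x.a * y.b - x.b * y.a) := rfl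
@[simp] lemma one_k : (1 : Gp D).k = 0 := rfl
@[simp] lemma one_a : (1 : Gp D).a = 0 := rfl
@[simp] lemma one_b : (1 : Gp D).b = 0 := rfl
@[simp] lemma one_c : (1 : Gp D).c = 0 := rfl
@[simp] lemma inv_k (x : Gp D) : (x⁻¹).k = -x.k := rfl
@[simp] lemma inv_a (x : Gp D) : (x⁻¹).a = - (D.e (-x.k) * x.a) := rfl
@[simp] lemma inv_b (x : Gp D) : (x⁻¹).b = - (D.e (-x.k) * x.b) := rfl
@[simp] lemma inv_c (x : Gp D) : (x⁻¹).c = - (D.e (-x.k) ^ 2 * x.c) := rfl

instance : Group (Gp D) :=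
  Group.ofLeftAxioms
    (by
      intro x y z
      ext
      · simp [add_assoc]
      · simp only [mul_a, mul_k, D.e_add]; ring
      · simp only [mul_b, mul_k, D.e_add]; ring
      · simp only [mul_a, mul_b, mul_c, mul_k, D.e_add]; ring)
    (by
      intro x
      ext
      · simp
      · simp [D.e_zero]
      · simp [D.e_zero]
      · simp [D.e_zero])
    (by
      intro x
      ext
      · simp
      · simp
      · simp
      · simp only [mul_c, inv_c, inv_k, inv_a, inv_b, one_c]; ring)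

/-- Elements of the Heisenberg part. -/
def u (D : RingData R) (a b c : R) : Gp D := ⟨0, a, b, c⟩

@[simp] lemma u_k (a b c : R) : (u D a b c).k = 0 := rfl
@[simp] lemma u_a (a b c : R) : (u D a b c).a = a := rfl
@[simp] lemma u_b (a b c : R) : (u D a b c).b = b := rfl
@[simp] lemma u_c (a b c : R) : (u D a b c).c = c := rfl

lemma eq_u (x : Gp D) (hx : x.k = 0) : x = u D x.a x.b x.c := by
  ext <;> simp [hx]

lemma u_mul (a b c a' b' c' : R) :
    u D a b c * u D a' b' c' = u D (a + a') (b + b') (c + c' + (a * b' - b * a')) := by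
  ext <;> simp [D.e_zero]

lemma u_inv (a b c : R) : (u D a b c)⁻¹ = u D (-a) (-b) (-c) := by
  ext <;> simp [D.e_zero]

lemma u_sq (a b c : R) : (u D a b c) ^ 2 = u D (2 * a) (2 * b) (2 * c) := by
  rw [pow_two, u_mul]
  ext
  · rfl
  · simp; ring
  · simp; ring
  · simp; ring

lemma u_zero : u D 0 0 0 = 1 := rfl

/-- Conjugation of a Heisenberg element. -/
lemma conj_u (s : Gp D) (a b c : R) :
    s * u D a b c * s⁻¹ =
      u D (D.e s.k * a) (D.e s.k * b) (D.e s.k ^ 2 * c + 2 * D.e s.k * (s.a * b - s.b * a)) := by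
  have h := D.e_mul_neg s.k
  ext
  · simp
  · simp only [mul_a, mul_k, inv_a, u_a, u_k, add_zero]
    linear_combination (-s.a) * h
  · simp only [mul_b, mul_k, inv_b, u_b, u_k, add_zero]
    linear_combination (-s.b) * h
  · simp only [mul_a, mul_b, mul_c, mul_k, inv_a, inv_b, inv_c, u_a, u_b, u_c, u_k, add_zero]
    linear_combination (-(s.c) * (D.e s.k * D.e (-s.k) + 1) - D.e s.k * (s.b * a - s.a * b)) * h

lemma conj_u' (s : Gp D) (a b c : R) :
    s⁻¹ * u D a b c * s =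
      u D (D.e (-s.k) * a) (D.e (-s.k) * b)
        (D.e (-s.k) ^ 2 * c + 2 * D.e (-s.k) * (s⁻¹.a * b - s⁻¹.b * a)) := by
  have h := conj_u s⁻¹ a b c
  rw [inv_inv] at h
  rw [h]
  rfl

/-! ### The nilpotent quotient of class two -/

/-- The three degree one coordinates are `k`, `ε a`, `ε b`. -/
def a0 (x : Gp D) : ℚ := D.ε x.a
def b0 (x : Gp D) : ℚ := D.ε x.b
/-- The three degree two coordinates. -/
def A (x : Gp D) : ℚ := 2 * D.d x.a - x.k * D.ε x.a
def B (x : Gp D) : ℚ := 2 * D.d x.b - x.k * D.ε x.b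
def C (x : Gp D) : ℚ := D.ε x.c

lemma a0_mul (x y : Gp D) : (x * y).a0 = x.a0 + y.a0 := by
  simp [a0, D.ε_e]

lemma b0_mul (x y : Gp D) : (x * y).b0 = x.b0 + y.b0 := by
  simp [b0, D.ε_e]

lemma A_mul (x y : Gp D) : (x * y).A = x.A + y.A + (x.k * y.a0 - y.k * x.a0) := by
  simp [A, a0, D.ε_e, D.d_add, D.d_mul, D.d_e]
  ring

lemma B_mul (x y : Gp D) : (x * y).B = x.B + y.B + (x.k * y.b0 - y.k * x.b0) := by
  simp [B, b0, D.ε_e, D.d_add, D.d_mul, D.d_e]
  ring

lemma C_mul (x y : Gp D) : (x * y).C = x.C + y.C + (x.a0 * y.b0 - x.b0 * y.a0) := by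
  simp [C, a0, b0, D.ε_e]

lemma a0_one : (1 : Gp D).a0 = 0 := by simp [a0]
lemma b0_one : (1 : Gp D).b0 = 0 := by simp [b0]
lemma A_one : (1 : Gp D).A = 0 := by simp [A, D.d_zero]
lemma B_one : (1 : Gp D).B = 0 := by simp [B, D.d_zero]
lemma C_one : (1 : Gp D).C = 0 := by simp [C]

lemma a0_inv (x : Gp D) : (x⁻¹).a0 = - x.a0 := by
  have := a0_mul x⁻¹ x
  rw [inv_mul_cancel, a0_one] at this
  linarith

lemma b0_inv (x : Gp D) : (x⁻¹).b0 = - x.b0 := by
  have := b0_mul x⁻¹ x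
  rw [inv_mul_cancel, b0_one] at this
  linarith

lemma A_inv (x : Gp D) : (x⁻¹).A = - x.A := by
  have := A_mul x⁻¹ x
  rw [inv_mul_cancel, A_one, a0_inv, inv_k] at this
  push_cast at this
  linarith

lemma B_inv (x : Gp D) : (x⁻¹).B = - x.B := by
  have := B_mul x⁻¹ x
  rw [inv_mul_cancel, B_one, b0_inv, inv_k] at this
  push_cast at this
  linarith

lemma C_inv (x : Gp D) : (x⁻¹).C = - x.C := by
  have := C_mul x⁻¹ x
  rw [inv_mul_cancel, C_one, b0_inv, a0_inv] at this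
  linarith

/-- The pairing of the degree-one part of `h` with the degree-two part of `x`. -/
def lam (h x : Gp D) : ℚ := h.k * x.C - h.a0 * x.B + h.b0 * x.A

/-- Two elements outside the Heisenberg part with the same invariants are conjugate. -/
lemma conj_crit (x y : Gp D) (hk : x.k ≠ 0) (h1 : y.k = x.k) (h2 : y.a0 = x.a0)
    (h3 : y.b0 = x.b0) (h4 : lam x y = lam x x) : ∃ s : Gp D, y = s * x * s⁻¹ := by
  have hk' : (x.k : ℚ) ≠ 0 := by exact_mod_cast hk
  obtain ⟨α, hα⟩ := D.ker (y.a - x.a) (by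
    rw [map_sub]; simp only [a0] at h2; linarith) x.k hk
  obtain ⟨β, hβ⟩ := D.ker (y.b - x.b) (by
    rw [map_sub]; simp only [b0] at h3; linarith) x.k hk
  have eα : D.d y.a - D.d x.a = - (x.k * D.ε α) := by
    have := congrArg D.d hα
    rw [D.d_sub, D.d_mul, D.d_sub, map_sub, D.ε_e, D.d_e, D.d_one, map_one] at this
    linarith
  have eβ : D.d y.b - D.d x.b = - (x.k * D.ε β) := by
    have := congrArg D.d hβ
    rw [D.d_sub, D.d_mul, D.d_sub, map_sub, D.ε_e, D.d_e, D.d_one, map_one] at this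
    linarith
  have hc0 : D.ε (y.c - x.c + D.e x.k * (y.a * β - y.b * α) - (α * x.b - β * x.a)) = 0 := by
    simp only [map_sub, map_add, map_mul, D.ε_e]
    simp only [lam, a0, b0, A, B, C] at h2 h3 h4
    rw [h1, h2, h3] at h4
    rw [h2, h3]
    have key : (x.k : ℚ) * (D.ε y.c - D.ε x.c + 1 * (D.ε x.a * D.ε β - D.ε x.b * D.ε α) -
        (D.ε α * D.ε x.b - D.ε β * D.ε x.a)) = 0 := by
      linear_combination h4 + 2 * D.ε x.b * (-1) * eα + 2 * D.ε x.a * eβ
    rcases mul_eq_zero.1 key with h | h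
    · exact absurd h hk'
    · exact h
  obtain ⟨γ, hγ⟩ := D.ker _ hc0 (2 * x.k) (by omega)
  refine ⟨⟨0, α, β, γ⟩, ?_⟩
  rw [eq_mul_inv_iff_mul_eq]
  have e2 : D.e (2 * x.k) = D.e x.k ^ 2 := by
    rw [two_mul, D.e_add]; ring
  rw [e2] at hγ
  ext
  · simp [h1]
  · simp only [mul_a, D.e_zero, h1]
    linear_combination hα
  · simp only [mul_b, D.e_zero, h1]
    linear_combination hβ
  · simp only [mul_c, D.e_zero, h1]
    linear_combination hγ

end Gp

end Pool.Agent.H347W
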