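import Pool.Agent.H347W.Grp

set_option autoImplicit false

namespace Pool.Agent.H347W

open Gp

variable {R : Type} [CommRing R] {D : RingData R}

/-- The partial order without total extension. -/
def P0 (D : RingData R) : Set (Gp D) :=
  {x | x = 1 ∨ ∃ q c : R, x = u D ((2 + D.e 1) * q) 0 c ∧
    (0 < D.δ c ∨ (D.δ c = 0 ∧ D.ε q < 0))}

lemma del_rho (r : R) : D.δ ((2 + D.e 1) * r) = 0 := by
  rw [map_mul, map_add, D.δ_e, map_ofNat]; ring

lemma del_e_ne (k : ℤ) : D.δ (D.e k) ≠ 0 := by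
  intro h
  have h1 := congrArg D.δ (D.e_mul_neg k)
  rw [map_mul, h, zero_mul, map_one] at h1
  exact zero_ne_one h1

lemma P0_one : (1 : Gp D) ∈ P0 D := Or.inl rfl

lemma P0_mul {x y : Gp D} (hx : x ∈ P0 D) (hy : y ∈ P0 D) : x * y ∈ P0 D := by
  rcases hx with rfl | ⟨q, c, rfl, h⟩
  · rwa [one_mul]
  rcases hy with rfl | ⟨q', c', rfl, h'⟩
  · rw [mul_one]; exact Or.inr ⟨q, c, rfl, h⟩
  right
  refine ⟨q + q', c + c', ?_, ?_⟩
  · rw [u_mul]
    ext
    · rfl
    · simp; ring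
    · simp
    · simp
  · rw [map_add, map_add]
    rcases h with h | ⟨h, h2⟩ <;> rcases h' with h' | ⟨h', h2'⟩
    · left; linarith
    · left; linarith
    · left; linarith
    · right; exact ⟨by linarith, by linarith⟩

lemma P0_conj' {x : Gp D} (hx : x ∈ P0 D) (s : Gp D) : s * x * s⁻¹ ∈ P0 D := by
  rcases hx with rfl | ⟨q, c, rfl, h⟩
  · left; simp
  right
  rw [conj_u]
  refine ⟨D.e s.k * q, D.e s.k ^ 2 * c + (2 + D.e 1) * (-(2 * D.e s.k * s.b * q)), ?_, ?_⟩
  · ext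
    · rfl
    · simp; ring
    · simp
    · simp; ring
  · rw [map_add, del_rho, add_zero, map_mul, map_pow, map_mul, D.ε_e, one_mul]
    have hpos : 0 < D.δ (D.e s.k) ^ 2 := by
      have := del_e_ne (D := D) s.k
      positivity
    rcases h with h | ⟨h, h2⟩
    · left; exact mul_pos hpos h
    · right; exact ⟨by rw [h, mul_zero], h2⟩

lemma rho_ne : (2 + D.e 1 : R) ≠ 0 := by
  intro h
  have := congrArg D.ε h
  rw [map_add, D.ε_e, map_ofNat, map_zero] at this
  norm_num at this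

lemma P0_anti [IsDomain R] {x : Gp D} (hx : x ∈ P0 D) (hy : x⁻¹ ∈ P0 D) : x = 1 := by
  have h := P0_mul hx hy
  rcases hx with rfl | ⟨q, c, rfl, h1⟩
  · rfl
  rcases hy with hy | ⟨q', c', hy, h2⟩
  · rwa [inv_eq_one] at hy
  exfalso
  rw [u_inv] at hy
  have e1 : -((2 + D.e 1) * q) = (2 + D.e 1) * q' := congrArg Gp.a hy
  have e3 : -c = c' := congrArg Gp.c hy
  have e4 : (2 + D.e 1) * (q + q') = 0 := by linear_combination -e1
  have e5 : q + q' = 0 := (mul_eq_zero.1 e4).resolve_left rho_ne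
  have e6 : D.ε q + D.ε q' = 0 := by rw [← map_add, e5, map_zero]
  have e7 : D.δ c' = - D.δ c := by rw [← e3, map_neg]
  rcases h1 with h1 | ⟨h1, h1'⟩ <;> rcases h2 with h2 | ⟨h2, h2'⟩ <;> linarith

/-- `P0` has no total extension. -/
theorem not_O [IsDomain R] (D : RingData R) :
    ¬ (∀ P : Set (Gp D), (1 : Gp D) ∈ P → (∀ a ∈ P, ∀ b ∈ P, a * b ∈ P) →
        (∀ a ∈ P, a⁻¹ ∈ P → a = 1) → (∀ a ∈ P, ∀ x : Gp D, x⁻¹ * a * x ∈ P) →
        ∃ Q : Set (Gp D), P ⊆ Q ∧ (1 : Gp D) ∈ Q ∧ (∀ a ∈ Q, ∀ b ∈ Q, a * b ∈ Q) ∧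
          (∀ a ∈ Q, a⁻¹ ∈ Q → a = 1) ∧ (∀ a ∈ Q, ∀ x : Gp D, x⁻¹ * a * x ∈ Q) ∧
          (∀ a : Gp D, a ∈ Q ∨ a⁻¹ ∈ Q)) := by
  intro hall
  obtain ⟨Q, hPQ, -, hmul, hanti, hconj, htot⟩ := hall (P0 D) P0_one
    (fun a ha b hb => P0_mul ha hb) (fun a ha hb => P0_anti ha hb)
    (fun a ha x => by
      have := P0_conj' ha x⁻¹
      simpa using this)
  have hconj' : ∀ a ∈ Q, ∀ x : Gp D, x * a * x⁻¹ ∈ Q := by
    intro a ha x
    have := hconj a ha x⁻¹
    simpa using this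
  have hne : ∀ z : R, u D (2 + D.e 1) 0 z ≠ 1 := by
    intro z h
    exact rho_ne (D := D) (congrArg Gp.a h)
  have hin1 : u D (2 + D.e 1) 0 1 ∈ Q := by
    apply hPQ
    right
    exact ⟨1, 1, by rw [mul_one], Or.inl (by rw [map_one]; norm_num)⟩
  have hin2 : u D (-(2 + D.e 1)) 0 0 ∈ Q := by
    apply hPQ
    right
    refine ⟨-1, 0, by rw [mul_neg, mul_one], Or.inr ⟨map_zero _, ?_⟩⟩
    rw [map_neg, map_one]; norm_num
  rcases htot (u D 1 0 0) with hg | hg
  · -- all `(1, 0, z)` are positive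
    have h1 : ∀ z : R, u D 1 0 z ∈ Q := by
      intro z
      have := hconj' _ hg (u D 0 (-(D.half * z)) 0)
      rw [conj_u] at this
      convert this using 1
      ext
      · rfl
      · simp [D.e_zero]
      · simp
      · simp only [u_c, u_k, u_a, u_b, D.e_zero]
        linear_combination (-z) * D.two_half
    have ht : u D (D.e 1) 0 0 ∈ Q := by
      have := hconj' _ hg (⟨1, 0, 0, 0⟩ : Gp D)
      rw [conj_u] at this
      convert this using 1
      ext
      · rfl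
      · simp
      · simp
      · simp
    have h2 := hmul _ (hmul _ (h1 0) _ (h1 0)) _ ht
    rw [u_mul, u_mul] at h2
    have e : u D (1 + 1 + D.e 1) (0 + 0 + 0) (0 + 0 + (1 * 0 - 0 * 1) + 0 +
        ((1 + 1) * 0 - (0 + 0) * D.e 1)) = u D (2 + D.e 1) 0 0 := by
      ext
      · rfl
      · simp; ring
      · simp
      · simp
    rw [e] at h2
    have h3 : (u D (2 + D.e 1) 0 0)⁻¹ ∈ Q := by
      rw [u_inv, neg_zero]; exact hin2
    exact hne 0 (hanti _ h2 h3)
  · have hg' : u D (-1) 0 0 ∈ Q := by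
      rw [u_inv, neg_zero] at hg; exact hg
    have h1 : ∀ z : R, u D (-1) 0 z ∈ Q := by
      intro z
      have := hconj' _ hg' (u D 0 (D.half * z) 0)
      rw [conj_u] at this
      convert this using 1
      ext
      · rfl
      · simp [D.e_zero]
      · simp
      · simp only [u_c, u_k, u_a, u_b, D.e_zero]
        linear_combination (-z) * D.two_half
    have ht : u D (-(D.e 1)) 0 0 ∈ Q := by
      have := hconj' _ hg' (⟨1, 0, 0, 0⟩ : Gp D)
      rw [conj_u] at this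
      convert this using 1
      ext
      · rfl
      · simp
      · simp
      · simp
    have h2 := hmul _ (hmul _ (h1 (-1)) _ (h1 0)) _ ht
    rw [u_mul, u_mul] at h2
    have h3 : (u D (2 + D.e 1) 0 1)⁻¹ ∈ Q := by
      rw [u_inv]
      convert h2 using 1
      ext
      · rfl
      · simp; ring
      · simp
      · simp
    exact hne 1 (hanti _ hin1 h3)

end Pool.Agent.H347W
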