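import Pool.Agent.H347W.Grp

set_option autoImplicit false

namespace Pool.Agent.H347W

open Polynomial

/-- Polynomials that vanish neither at `1` nor at `-2`. -/
def Mon : Submonoid ℚ[X] where
  carrier := {q | q.eval 1 ≠ 0 ∧ q.eval (-2) ≠ 0}
  one_mem' := by simp
  mul_mem' := by
    rintro a b ⟨ha, ha'⟩ ⟨hb, hb'⟩
    simp only [Set.mem_ofPred_eq, eval_mul]
    exact ⟨mul_ne_zero ha hb, mul_ne_zero ha' hb'⟩

lemma mem_Mon {q : ℚ[X]} : q ∈ Mon ↔ q.eval 1 ≠ 0 ∧ q.eval (-2) ≠ 0 := Iff.rfl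

/-- The semilocal ring. -/
abbrev RR : Type := Localization Mon

lemma Mon_le : Mon ≤ nonZeroDivisors ℚ[X] := by
  intro q hq
  rw [mem_nonZeroDivisors_iff_ne_zero]
  rintro rfl
  simp [mem_Mon] at hq

instance : IsDomain RR := IsLocalization.isDomain_localization Mon_le

noncomputable def phi : ℚ[X] →+* DualNumber ℚ :=
  (aeval (1 + DualNumber.eps : DualNumber ℚ)).toRingHom

lemma fst_phi (p : ℚ[X]) : TrivSqZeroExt.fst (phi p) = p.eval 1 := by
  have h : ((TrivSqZeroExt.fstHom ℚ ℚ ℚ).toRingHom.comp phi) = evalRingHom 1 := by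
    apply Polynomial.ringHom_ext
    · intro a
      simp [phi]
    · simp [phi]
  have := congrArg (fun f : ℚ[X] →+* ℚ => f p) h
  simpa using this

lemma phi_unit (y : Mon) : IsUnit (phi y) := by
  rw [TrivSqZeroExt.isUnit_iff_isUnit_fst, fst_phi]
  exact isUnit_iff_ne_zero.2 y.2.1

noncomputable def Phi : RR →+* DualNumber ℚ := IsLocalization.lift phi_unit

noncomputable def eps : RR →+* ℚ := (TrivSqZeroExt.fstHom ℚ ℚ ℚ).toRingHom.comp Phi

lemma eval_unit (y : Mon) : IsUnit (evalRingHom (-2 : ℚ) y) :=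
  isUnit_iff_ne_zero.2 y.2.2

noncomputable def del : RR →+* ℚ := IsLocalization.lift eval_unit

lemma Phi_alg (p : ℚ[X]) : Phi (algebraMap ℚ[X] RR p) = phi p := IsLocalization.lift_eq _ _

lemma eps_alg (p : ℚ[X]) : eps (algebraMap ℚ[X] RR p) = p.eval 1 := by
  show TrivSqZeroExt.fst (Phi (algebraMap ℚ[X] RR p)) = _
  rw [Phi_alg, fst_phi]

lemma del_alg (p : ℚ[X]) : del (algebraMap ℚ[X] RR p) = p.eval (-2) := IsLocalization.lift_eq _ _

lemma exists_rep (r : RR) : ∃ (p : ℚ[X]) (q : Mon), r * algebraMap ℚ[X] RR q =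
    algebraMap ℚ[X] RR p := by
  obtain ⟨⟨p, q⟩, h⟩ := IsLocalization.surj Mon r
  exact ⟨p, q, h⟩

lemma isUnit_alg {p : ℚ[X]} (hp : p ∈ Mon) : IsUnit (algebraMap ℚ[X] RR p) :=
  IsLocalization.map_units RR ⟨p, hp⟩

lemma isUnit_of {r : RR} (h1 : eps r ≠ 0) (h2 : del r ≠ 0) : IsUnit r := by
  obtain ⟨p, q, h⟩ := exists_rep r
  have e1 := congrArg eps h
  have e2 := congrArg del h
  rw [map_mul, eps_alg, eps_alg] at e1
  rw [map_mul, del_alg, del_alg] at e2
  have hp : p ∈ Mon := by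
    rw [mem_Mon, ← e1, ← e2]
    exact ⟨mul_ne_zero h1 q.2.1, mul_ne_zero h2 q.2.2⟩
  have hu := isUnit_alg hp
  rw [← h] at hu
  exact isUnit_of_mul_isUnit_left hu

lemma X_mem : (X : ℚ[X]) ∈ Mon := by
  rw [mem_Mon]; simp

noncomputable def tU : RRˣ := (isUnit_alg X_mem).unit

noncomputable def ee (k : ℤ) : RR := ((tU ^ k : RRˣ) : RR)

lemma ee_zero : ee 0 = 1 := by simp [ee]
lemma ee_add (k l : ℤ) : ee (k + l) = ee k * ee l := by simp [ee, zpow_add]
lemma ee_one : ee 1 = algebraMap ℚ[X] RR X := by simp [ee, tU]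
lemma ee_nat (n : ℕ) : ee n = algebraMap ℚ[X] RR (X ^ n) := by
  simp [ee, tU]

lemma eps_ee (k : ℤ) : eps (ee k) = 1 := by
  have h1 : eps (ee 1) = 1 := by rw [ee_one, eps_alg]; simp
  induction k using Int.induction_on with
  | zero => rw [ee_zero, map_one]
  | succ i ih => rw [ee_add, map_mul, ih, h1, mul_one]
  | pred i ih =>
    have h2 : ee (-(i : ℤ)) = ee (-(i : ℤ) - 1) * ee 1 := by
      rw [← ee_add]; congr 1; ring
    rw [h2, map_mul, h1, mul_one] at ih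
    exact ih

noncomputable def dd (r : RR) : ℚ := TrivSqZeroExt.snd (Phi r)

lemma dd_add (r s : RR) : dd (r + s) = dd r + dd s := by
  simp [dd]

lemma dd_mul (r s : RR) : dd (r * s) = eps r * dd s + dd r * eps s := by
  show TrivSqZeroExt.snd (Phi (r * s)) = TrivSqZeroExt.fst (Phi r) * TrivSqZeroExt.snd (Phi s) +
    TrivSqZeroExt.snd (Phi r) * TrivSqZeroExt.fst (Phi s)
  rw [map_mul, DualNumber.snd_mul]

lemma dd_ee (k : ℤ) : dd (ee k) = k := by
  have h1 : dd (ee 1) = 1 := by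
    rw [ee_one, dd, Phi_alg]
    simp [phi]
  induction k using Int.induction_on with
  | zero => rw [ee_zero]; simp [dd]
  | succ i ih => rw [ee_add, dd_mul, ih, h1, eps_ee, eps_ee]; push_cast; ring
  | pred i ih =>
    have h2 : ee (-(i : ℤ)) = ee (-(i : ℤ) - 1) * ee 1 := by
      rw [← ee_add]; congr 1; ring
    rw [h2, dd_mul, h1, eps_ee, eps_ee] at ih
    push_cast at ih ⊢
    linarith

lemma del_ee_one : del (ee 1) = -2 := by
  rw [ee_one, del_alg]; simp

lemma ker_one (r : RR) (hr : eps r = 0) : ∃ s, r = (1 - ee 1) * s := by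
  obtain ⟨p, q, h⟩ := exists_rep r
  have e1 := congrArg eps h
  rw [map_mul, eps_alg, eps_alg, hr, zero_mul] at e1
  obtain ⟨p', hp'⟩ := (dvd_iff_isRoot (p := p) (a := 1)).2 e1.symm
  obtain ⟨v, hv⟩ := IsLocalization.map_units RR q
  refine ⟨- algebraMap ℚ[X] RR p' * (↑v⁻¹ : RR), ?_⟩
  rw [← hv] at h
  have h2 : r = algebraMap ℚ[X] RR p * (↑v⁻¹ : RR) := by
    rw [← h, mul_assoc, Units.mul_inv, mul_one]
  rw [h2, hp', map_mul, map_sub, ee_one, map_one, map_one]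
  ring

lemma geom (n : ℕ) : (1 - ee 1) * (algebraMap ℚ[X] RR (∑ i ∈ Finset.range n, X ^ i)) = 1 - ee n := by
  rw [ee_one, ee_nat]
  have : (1 - X) * (∑ i ∈ Finset.range n, (X : ℚ[X]) ^ i) = 1 - X ^ n := mul_neg_geom_sum _ _
  rw [← map_one (algebraMap ℚ[X] RR), ← map_sub, ← map_sub, ← map_mul, this]

lemma geom_unit (n : ℕ) (hn : n ≠ 0) :
    IsUnit (algebraMap ℚ[X] RR (∑ i ∈ Finset.range n, X ^ i)) := by
  apply isUnit_alg
  rw [mem_Mon]
  constructor
  · simp [eval_finsetSum, hn]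
  · rw [eval_finsetSum]
    simp only [eval_pow, eval_X]
    rw [geom_sum_eq (by norm_num)]
    intro h
    rw [div_eq_zero_iff] at h
    rcases h with h | h
    · have h2 : ((-2 : ℚ)) ^ n = 1 := by linarith
      have h3 : |(-2 : ℚ) ^ n| = 1 := by rw [h2]; simp
      rw [abs_pow] at h3
      have h4 : |(-2 : ℚ)| = 2 := by norm_num
      rw [h4] at h3
      have h5 : (1 : ℚ) < 2 ^ n := one_lt_pow₀ (by norm_num) hn
      linarith
    · norm_num at h

lemma ker_nat (r : RR) (hr : eps r = 0) (n : ℕ) (hn : n ≠ 0) : ∃ s, r = (1 - ee n) * s := by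
  obtain ⟨s, hs⟩ := ker_one r hr
  obtain ⟨v, hv⟩ := geom_unit n hn
  refine ⟨(↑v⁻¹ : RR) * s, ?_⟩
  rw [← geom n, ← hv, hs]
  have : (v : RR) * (↑v⁻¹ : RR) = 1 := Units.mul_inv v
  linear_combination (-(1 - ee 1) * s) * this

lemma ker_int (r : RR) (hr : eps r = 0) (k : ℤ) (hk : k ≠ 0) : ∃ s, r = (1 - ee k) * s := by
  rcases Int.natAbs_eq k with h | h
  · obtain ⟨s, hs⟩ := ker_nat r hr k.natAbs (by omega)
    rw [← h] at hs
    exact ⟨s, hs⟩
  · obtain ⟨s, hs⟩ := ker_nat r hr k.natAbs (by omega)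
    have e : (k.natAbs : ℤ) = -k := by omega
    rw [e] at hs
    refine ⟨- ee (-k) * s, ?_⟩
    have h1 : ee k * ee (-k) = 1 := by
      rw [← ee_add, add_neg_cancel, ee_zero]
    rw [hs]
    linear_combination (-s) * h1

lemma two_alg : algebraMap ℚ[X] RR 2 = 2 := by
  have h : (2 : ℚ[X]) = 1 + 1 := by norm_num
  rw [h, map_add, map_one]; norm_num

lemma dvd_pow (f : RR) (hf : eps f ≠ 0) : ∃ m : ℕ, f ∣ (2 + ee 1) ^ m := by
  obtain ⟨p, q, h⟩ := exists_rep f
  have e1 := congrArg eps h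
  rw [map_mul, eps_alg, eps_alg] at e1
  have hp1 : p.eval 1 ≠ 0 := by rw [← e1]; exact mul_ne_zero hf q.2.1
  have hp0 : p ≠ 0 := by rintro rfl; simp at hp1
  obtain ⟨p', hp', hnd⟩ := exists_eq_pow_rootMultiplicity_mul_and_not_dvd p hp0 (-2)
  have hpm : p' ∈ Mon := by
    rw [mem_Mon]
    constructor
    · intro h0
      apply hp1
      rw [hp', eval_mul, h0, mul_zero]
    · intro h0
      exact hnd (dvd_iff_isRoot.2 h0)
  obtain ⟨v, hv⟩ := isUnit_alg hpm
  refine ⟨rootMultiplicity (-2) p, algebraMap ℚ[X] RR q * (↑v⁻¹ : RR), ?_⟩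
  rw [← mul_assoc, h]
  conv_rhs => rw [hp']
  rw [map_mul, ← hv, mul_assoc, Units.mul_inv, mul_one, map_pow, ee_one]
  congr 1
  have h2 : (X - C (-2) : ℚ[X]) = 2 + X := by
    have : (C (-2) : ℚ[X]) = -2 := by
      rw [C_neg, show (C 2 : ℚ[X]) = 2 from map_ofNat C 2]
    rw [this]; ring
  rw [h2, map_add, two_alg]

/-- The ring data. -/
noncomputable def RD : RingData RR where
  e := ee
  e_zero := ee_zero
  e_add := ee_add
  half := algebraMap ℚ[X] RR (C (1 / 2))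
  two_half := by
    rw [← two_alg, ← map_mul, ← map_one (algebraMap ℚ[X] RR)]
    congr 1
    have h2 : (2 : ℚ[X]) = C 2 := (map_ofNat C 2).symm
    rw [h2, ← C_mul]
    norm_num
  ε := eps
  d := dd
  d_add := dd_add
  d_mul := dd_mul
  ε_e := eps_ee
  d_e := dd_ee
  ker := ker_int
  dvd := dvd_pow
  unit4 := by
    apply isUnit_of
    · rw [map_sub, eps_ee, map_ofNat]; norm_num
    · rw [map_sub, del_ee_one, map_ofNat]; norm_num
  δ := del
  δ_e := del_ee_one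

end Pool.Agent.H347W
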