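import Pool.Agent.H347W.Grp
import Pool.Agent.H347W.Cone

set_option autoImplicit false

namespace Pool.Agent.H347W

open Gp

variable {R : Type} [CommRing R]

/-- The multiplier pairs `(f(t), f(t²))`. -/
inductive Mlt (D : RingData R) : R → R → Prop
  | one : Mlt D 1 1
  | add {f f2 g g2 : R} : Mlt D f f2 → Mlt D g g2 → Mlt D (f + g) (f2 + g2)
  | mulE {f f2 : R} (k : ℤ) : Mlt D f f2 → Mlt D (D.e k * f) (D.e k ^ 2 * f2)
  | mulW {f f2 : R} (k : ℤ) : Mlt D f f2 → Mlt D ((2 - D.e k) * f) ((2 - D.e k ^ 2) * f2)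

variable {D : RingData R}

lemma Mlt.mul {f f2 g g2 : R} (hf : Mlt D f f2) (hg : Mlt D g g2) : Mlt D (f * g) (f2 * g2) := by
  induction hf with
  | one => simpa using hg
  | add _ _ ih1 ih2 => simpa [add_mul] using Mlt.add ih1 ih2
  | mulE k _ ih => simpa [mul_assoc] using Mlt.mulE k ih
  | mulW k _ ih => simpa [mul_assoc] using Mlt.mulW k ih

lemma Mlt.pos {f f2 : R} (hf : Mlt D f f2) : 0 < D.ε f ∧ 0 < D.ε f2 := by
  induction hf with
  | one => simp
  | add _ _ ih1 ih2 => simp only [map_add]; exact ⟨by linarith [ih1.1, ih2.1], by linarith [ih1.2, ih2.2]⟩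
  | mulE k _ ih => simpa [D.ε_e] using ih
  | mulW k _ ih =>
    simp only [map_mul, map_sub, map_pow, D.ε_e, map_ofNat]
    constructor
    · linarith [ih.1]
    · linarith [ih.2]

lemma Mlt.pow {f f2 : R} (hf : Mlt D f f2) (n : ℕ) : Mlt D (f ^ n) (f2 ^ n) := by
  induction n with
  | zero => simpa using Mlt.one
  | succ n ih => simpa [pow_succ] using ih.mul hf

lemma Mlt.four : Mlt D (4 - D.e 1) (4 - D.e 1 ^ 2) := by
  have h1 : Mlt D (1 : R) 1 := Mlt.one
  have h2 := (h1.add h1).add (Mlt.mulW 1 h1)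
  have e1 : (1 : R) + 1 + (2 - D.e 1) * 1 = 4 - D.e 1 := by ring
  have e2 : (1 : R) + 1 + (2 - D.e 1 ^ 2) * 1 = 4 - D.e 1 ^ 2 := by ring
  rwa [e1, e2] at h2

/-- For every `f` not vanishing at `t = 1` there is a multiplier `g`, a unit, with `f ∣ g(t²)`. -/
lemma exists_unit_mult (f : R) (hf : D.ε f ≠ 0) :
    ∃ g g2 : R, Mlt D g g2 ∧ IsUnit g ∧ f ∣ g2 := by
  obtain ⟨m, hm⟩ := D.dvd f hf
  refine ⟨(4 - D.e 1) ^ m, (4 - D.e 1 ^ 2) ^ m, Mlt.four.pow m, D.unit4.pow m, ?_⟩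
  have : (4 - D.e 1 ^ 2) = (2 + D.e 1) * (2 - D.e 1) := by ring
  rw [this, mul_pow]
  exact Dvd.dvd.mul_right hm _

/-- Membership in the ideal generated by `a` and `b`. -/
def Lin (a b z : R) : Prop := ∃ α β : R, z = α * a + β * b

lemma Lin.add {a b z z' : R} (h : Lin a b z) (h' : Lin a b z') : Lin a b (z + z') := by
  obtain ⟨α, β, rfl⟩ := h
  obtain ⟨α', β', rfl⟩ := h'
  exact ⟨α + α', β + β', by ring⟩

lemma Lin.mul {a b z : R} (h : Lin a b z) (r : R) : Lin a b (r * z) := by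
  obtain ⟨α, β, rfl⟩ := h
  exact ⟨r * α, r * β, by ring⟩

lemma Lin.scale {a b z : R} (h : Lin a b z) (f : R) : Lin (f * a) (f * b) (f * z) := by
  obtain ⟨α, β, rfl⟩ := h
  exact ⟨α, β, by ring⟩

lemma Lin.of_dvd {a b z f g : R} (h : Lin a b z) (hfg : f ∣ g) : Lin (f * a) (f * b) (g * z) := by
  obtain ⟨q, rfl⟩ := hfg
  have := (h.scale f).mul q
  have e : q * (f * z) = f * q * z := by ring
  rwa [e] at this

lemma Lin.unit {a b z g : R} (h : Lin a b z) (hg : IsUnit g) : Lin (g * a) (g * b) z := by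
  obtain ⟨u, rfl⟩ := hg
  have := (h.scale (u : R)).mul (↑u⁻¹ : R)
  simpa using this

/-- The saturation of the ideal generated by `a, b` under unit multipliers. -/
def Sat (D : RingData R) (a b z : R) : Prop :=
  ∃ g g2 : R, Mlt D g g2 ∧ IsUnit g ∧ Lin a b (g2 * z)

lemma Lin.sat {a b z : R} (h : Lin a b z) : Sat D a b z :=
  ⟨1, 1, Mlt.one, isUnit_one, by simpa using h⟩

lemma Sat.mul {a b z : R} (h : Sat D a b z) (r : R) : Sat D a b (r * z) := by
  obtain ⟨g, g2, hg, hu, hl⟩ := h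
  refine ⟨g, g2, hg, hu, ?_⟩
  have := hl.mul r
  have e : r * (g2 * z) = g2 * (r * z) := by ring
  rwa [e] at this

lemma Sat.add {a b z z' : R} (h : Sat D a b z) (h' : Sat D a b z') : Sat D a b (z + z') := by
  obtain ⟨g, g2, hg, hu, hl⟩ := h
  obtain ⟨g', g2', hg', hu', hl'⟩ := h'
  refine ⟨g * g', g2 * g2', hg.mul hg', hu.mul hu', ?_⟩
  have := (hl.mul g2').add (hl'.mul g2)
  have e : g2' * (g2 * z) + g2 * (g2' * z') = g2 * g2' * (z + z') := by ring
  rwa [e] at this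

lemma Sat.neg {a b z : R} (h : Sat D a b z) : Sat D a b (-z) := by
  simpa using h.mul (-1)

lemma Sat.scale {a b z f f2 : R} (h : Sat D a b z) (hf : Mlt D f f2) :
    Sat D (f * a) (f * b) z := by
  obtain ⟨g, g2, hg, hu, hl⟩ := h
  obtain ⟨g', g2', hg', hu', hd⟩ := exists_unit_mult (D := D) f (ne_of_gt hf.pos.1)
  refine ⟨g' * g, g2' * g2, hg'.mul hg, hu'.mul hu, ?_⟩
  have := hl.of_dvd hd
  rwa [mul_assoc]

lemma Sat.unscale {a b z f : R} (h : Sat D (f * a) (f * b) z) : Sat D a b z := by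
  obtain ⟨g, g2, hg, hu, α, β, hl⟩ := h
  exact ⟨g, g2, hg, hu, α * f, β * f, by rw [hl]; ring⟩

lemma Sat.zero [IsDomain R] {z : R} (h : Sat D 0 0 z) : z = 0 := by
  obtain ⟨g, g2, hg, _, α, β, hl⟩ := h
  have hg2 : g2 ≠ 0 := by
    rintro rfl
    have := hg.pos.2
    simp at this
  have : g2 * z = 0 := by rw [hl]; ring
  exact (mul_eq_zero.1 this).resolve_left hg2

/-! ### Consequences of the cone axioms inside the Heisenberg part -/

section cone

variable {P : Set (Gp D)}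

/-- (U1) conjugation moves the last coordinate by the ideal generated by `a, b`. -/
lemma U1 (hP : IsCone P) {a b c z : R} (h : u D a b c ∈ P) (hz : Lin a b z) :
    u D a b (c + z) ∈ P := by
  obtain ⟨α, β, rfl⟩ := hz
  have := hP.conj' h (u D (D.half * β) (-(D.half * α)) 0)
  rw [conj_u] at this
  have hh := D.two_half
  convert this using 1
  ext
  · simp
  · simp [D.e_zero]
  · simp [D.e_zero]
  · simp only [u_c, u_k, u_a, u_b, D.e_zero]
    linear_combination (-(α * a + β * b)) * hh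

/-- (U2) multipliers. -/
lemma U2 (hP : IsCone P) {a b c f f2 : R} (h : u D a b c ∈ P) (hf : Mlt D f f2) :
    u D (f * a) (f * b) (f2 * c) ∈ P := by
  induction hf with
  | one => simpa using h
  | @add f f2 g g2 _ _ ih1 ih2 =>
    have := hP.mul _ ih1 _ ih2
    rw [u_mul] at this
    convert this using 1
    ext
    · rfl
    · simp; ring
    · simp; ring
    · simp; ring
  | @mulE f f2 k _ ih =>
    have := hP.conj' ih (⟨k, 0, 0, 0⟩ : Gp D)
    rw [conj_u] at this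
    convert this using 1
    ext
    · rfl
    · simp; ring
    · simp; ring
    · simp; ring
  | @mulW f f2 k _ ih =>
    have := hP.wa _ ih (⟨-k, 0, 0, 0⟩ : Gp D)
    rw [conj_u', u_inv, u_sq, u_mul] at this
    convert this using 1
    ext
    · rfl
    · simp; ring
    · simp; ring
    · simp; ring

/-- The closure of the Heisenberg part of a cone under division by multipliers. -/
def Cl (D : RingData R) (P : Set (Gp D)) : Set (Gp D) :=
  {x | ∃ a b c f f2 : R, x = u D a b c ∧ Mlt D f f2 ∧ u D (f * a) (f * b) (f2 * c) ∈ P}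

lemma Cl.scale (hP : IsCone P) {a b c f f2 : R} (h : u D a b c ∈ Cl D P) (hf : Mlt D f f2) :
    u D (f * a) (f * b) (f2 * c) ∈ Cl D P := by
  obtain ⟨a', b', c', g, g2, he, hg, hm⟩ := h
  have e1 : a = a' := congrArg Gp.a he
  have e2 : b = b' := congrArg Gp.b he
  have e3 : c = c' := congrArg Gp.c he
  subst e1; subst e2; subst e3
  refine ⟨_, _, _, g, g2, rfl, hg, ?_⟩
  have := U2 hP hm hf
  convert this using 1
  ext
  · rfl
  · simp; ring
  · simp; ring
  · simp; ring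

lemma Cl.unscale {a b c f f2 : R} (h : u D (f * a) (f * b) (f2 * c) ∈ Cl D P)
    (hf : Mlt D f f2) : u D a b c ∈ Cl D P := by
  obtain ⟨a', b', c', g, g2, he, hg, hm⟩ := h
  have e1 : f * a = a' := congrArg Gp.a he
  have e2 : f * b = b' := congrArg Gp.b he
  have e3 : f2 * c = c' := congrArg Gp.c he
  subst e1; subst e2; subst e3
  refine ⟨a, b, c, g * f, g2 * f2, rfl, hg.mul hf, ?_⟩
  convert hm using 1
  ext
  · rfl
  · simp; ring
  · simp; ring
  · simp; ring

/-- (U3) -/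
lemma Cl.addLin (hP : IsCone P) {a b c z : R} (h : u D a b c ∈ Cl D P) (hz : Lin a b z) :
    u D a b (c + z) ∈ Cl D P := by
  obtain ⟨a', b', c', f, f2, he, hf, hm⟩ := h
  have e1 : a = a' := congrArg Gp.a he
  have e2 : b = b' := congrArg Gp.b he
  have e3 : c = c' := congrArg Gp.c he
  subst e1; subst e2; subst e3
  obtain ⟨g, g2, hg, hu, hd⟩ := exists_unit_mult (D := D) f (ne_of_gt hf.pos.1)
  refine ⟨a, b, c + z, g * f, g2 * f2, rfl, hg.mul hf, ?_⟩
  have h1 := U2 hP hm hg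
  have h2 : Lin (g * (f * a)) (g * (f * b)) (g2 * f2 * z) := by
    have h3 : Lin (f * a) (f * b) (g2 * (f2 * z)) := (hz.mul f2).of_dvd hd
    have h4 := h3.unit hu
    rwa [← mul_assoc g2] at h4
  have h5 := U1 hP h1 h2
  convert h5 using 1
  ext
  · rfl
  · simp; ring
  · simp; ring
  · simp; ring

lemma Cl.addSat (hP : IsCone P) {a b c z : R} (h : u D a b c ∈ Cl D P) (hz : Sat D a b z) :
    u D a b (c + z) ∈ Cl D P := by
  obtain ⟨g, g2, hg, hu, hl⟩ := hz
  have h1 := Cl.scale hP h hg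
  have h2 := Cl.addLin hP h1 (hl.unit hu)
  have h3 : u D (g * a) (g * b) (g2 * (c + z)) ∈ Cl D P := by
    rw [mul_add]; exact h2
  exact Cl.unscale h3 hg

lemma Cl.mul (hP : IsCone P) {x y : Gp D} (hx : x ∈ Cl D P) (hy : y ∈ Cl D P) :
    x * y ∈ Cl D P := by
  obtain ⟨a, b, c, f, f2, rfl, hf, hm⟩ := hx
  obtain ⟨a', b', c', g, g2, rfl, hg, hm'⟩ := hy
  -- bring both to the common multiplier `f * g`
  have h1 : u D ((f * g) * a) ((f * g) * b) ((f2 * g2) * c) ∈ P := by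
    have := U2 hP hm hg
    convert this using 1
    ext
    · rfl
    · simp; ring
    · simp; ring
    · simp; ring
  have h2 : u D ((f * g) * a') ((f * g) * b') ((f2 * g2) * c') ∈ P := by
    have := U2 hP hm' hf
    convert this using 1
    ext
    · rfl
    · simp; ring
    · simp; ring
    · simp; ring
  have hfg := hf.mul hg
  obtain ⟨h, hh2, hh, hu, hd⟩ := exists_unit_mult (D := D) (f * g) (ne_of_gt hfg.pos.1)
  have h3 := U2 hP h1 hh
  have h4 := U2 hP h2 hh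
  -- correct the last coordinate of the first factor
  have h5 : Lin (f * g * a) (f * g * b) (hh2 * (f2 * g2) * (a * b' - b * a') -
      (h * (f * g)) ^ 2 * (a * b' - b * a')) := by
    have l1 : Lin a b (a * b' - b * a') := ⟨b', -a', by ring⟩
    have l2 : Lin (f * g * a) (f * g * b) (hh2 * ((f2 * g2) * (a * b' - b * a'))) :=
      (l1.mul _).of_dvd hd
    have l3 : Lin (f * g * a) (f * g * b)
        ((f * g) * (-(h ^ 2 * (f * g)) * (a * b' - b * a'))) := (l1.mul _).scale _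
    have l4 := l2.add l3
    convert l4 using 1
    ring
  have h6 := U1 hP h3 (h5.unit hu)
  have h7 := hP.mul _ h6 _ h4
  rw [u_mul] at h7
  rw [u_mul]
  refine ⟨_, _, _, h * (f * g), hh2 * (f2 * g2), rfl, hh.mul hfg, ?_⟩
  convert h7 using 1
  ext
  · rfl
  · simp; ring
  · simp; ring
  · simp; ring

lemma Cl.conj' (hP : IsCone P) {x : Gp D} (hx : x ∈ Cl D P) (s : Gp D) :
    s * x * s⁻¹ ∈ Cl D P := by
  obtain ⟨a, b, c, f, f2, rfl, hf, hm⟩ := hx
  rw [conj_u]
  have h0 : u D a b c ∈ Cl D P := ⟨a, b, c, f, f2, rfl, hf, hm⟩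
  have h1 : u D (D.e s.k * a) (D.e s.k * b) (D.e s.k ^ 2 * c) ∈ Cl D P := by
    have := Cl.scale hP h0 (Mlt.mulE s.k Mlt.one)
    simpa using this
  apply Cl.addLin hP h1
  refine ⟨-2 * s.b, 2 * s.a, by ring⟩

lemma Cl.wa (hP : IsCone P) {x : Gp D} (hx : x ∈ Cl D P) (s : Gp D) :
    (s⁻¹ * x * s)⁻¹ * x ^ 2 ∈ Cl D P := by
  obtain ⟨a, b, c, f, f2, rfl, hf, hm⟩ := hx
  have h0 : u D a b c ∈ Cl D P := ⟨a, b, c, f, f2, rfl, hf, hm⟩
  have hw : Mlt D (2 - D.e (-s.k)) (2 - D.e (-s.k) ^ 2) := by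
    simpa using Mlt.mulW (-s.k) (Mlt.one (D := D))
  have h1 := Cl.scale hP h0 hw
  have l1 : Lin a b (-(2 * D.e (-s.k) * (s⁻¹.a * b - s⁻¹.b * a))) :=
    ⟨2 * D.e (-s.k) * s⁻¹.b, -(2 * D.e (-s.k) * s⁻¹.a), by ring⟩
  have l2 := (l1.sat (D := D)).scale hw
  have h2 := Cl.addSat hP h1 l2
  rw [conj_u', u_inv, u_sq, u_mul]
  convert h2 using 1
  ext
  · rfl
  · simp; ring
  · simp; ring
  · simp; ring

end cone


/-! ### Elements outside the Heisenberg part -/

section outside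

lemma pow_k (y : Gp D) (m : ℕ) : (y ^ m).k = m * y.k := by
  induction m with
  | zero => simp
  | succ m ih => rw [pow_succ, mul_k, ih]; push_cast; ring

lemma pow_a0 (y : Gp D) (m : ℕ) : (y ^ m).a0 = m * y.a0 := by
  induction m with
  | zero => simp [a0_one]
  | succ m ih => rw [pow_succ, a0_mul, ih]; push_cast; ring

lemma pow_b0 (y : Gp D) (m : ℕ) : (y ^ m).b0 = m * y.b0 := by
  induction m with
  | zero => simp [b0_one]
  | succ m ih => rw [pow_succ, b0_mul, ih]; push_cast; ring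

lemma pow_A (y : Gp D) (m : ℕ) : (y ^ m).A = m * y.A := by
  induction m with
  | zero => simp [A_one]
  | succ m ih => rw [pow_succ, A_mul, ih, pow_k, pow_a0]; push_cast; ring

lemma pow_B (y : Gp D) (m : ℕ) : (y ^ m).B = m * y.B := by
  induction m with
  | zero => simp [B_one]
  | succ m ih => rw [pow_succ, B_mul, ih, pow_k, pow_b0]; push_cast; ring

lemma pow_C (y : Gp D) (m : ℕ) : (y ^ m).C = m * y.C := by
  induction m with
  | zero => simp [C_one]
  | succ m ih => rw [pow_succ, C_mul, ih, pow_a0, pow_b0]; push_cast; ring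

/-- The normal weakly-abelian-closed semigroup generated by `h` (outside the Heisenberg part). -/
def CA (h : Gp D) : Set (Gp D) :=
  {y | ∃ n : ℕ, 1 ≤ n ∧ y.k = n * h.k ∧ y.a0 = n * h.a0 ∧ y.b0 = n * h.b0 ∧
    lam h y = n * lam h h}

lemma CA_self (h : Gp D) : h ∈ CA h := ⟨1, le_refl _, by simp, by simp, by simp, by simp⟩

lemma lam_mul (h x y : Gp D) : lam h (x * y) = lam h x + lam h y +
    (h.k * (x.a0 * y.b0 - x.b0 * y.a0) - h.a0 * (x.k * y.b0 - y.k * x.b0) +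
      h.b0 * (x.k * y.a0 - y.k * x.a0)) := by
  simp only [lam, A_mul, B_mul, C_mul]
  ring

lemma lam_inv (h x : Gp D) : lam h x⁻¹ = - lam h x := by
  simp only [lam, A_inv, B_inv, C_inv]
  ring

lemma CA_mul {h x y : Gp D} (hx : x ∈ CA h) (hy : y ∈ CA h) : x * y ∈ CA h := by
  obtain ⟨n, hn, h1, h2, h3, h4⟩ := hx
  obtain ⟨m, hm, g1, g2, g3, g4⟩ := hy
  refine ⟨n + m, by omega, ?_, ?_, ?_, ?_⟩
  · rw [mul_k, h1, g1]; push_cast; ring
  · rw [a0_mul, h2, g2]; push_cast; ring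
  · rw [b0_mul, h3, g3]; push_cast; ring
  · rw [lam_mul, h4, g4, h1, g1, h2, g2, h3, g3]; push_cast; ring

lemma CA_conj {h x : Gp D} (hx : x ∈ CA h) (s : Gp D) : s⁻¹ * x * s ∈ CA h := by
  obtain ⟨n, hn, h1, h2, h3, h4⟩ := hx
  refine ⟨n, hn, ?_, ?_, ?_, ?_⟩
  · simp only [mul_k, inv_k, h1]; ring
  · simp only [a0_mul, a0_inv, h2]; ring
  · simp only [b0_mul, b0_inv, h3]; ring
  · simp only [lam_mul, lam_inv, h4, mul_k, inv_k, h1, a0_mul, a0_inv, h2, b0_mul, b0_inv, h3]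
    push_cast; ring

lemma CA_wa {h x : Gp D} (hx : x ∈ CA h) (s : Gp D) : (s⁻¹ * x * s)⁻¹ * x ^ 2 ∈ CA h := by
  obtain ⟨n, hn, h1, h2, h3, h4⟩ := hx
  refine ⟨n, hn, ?_, ?_, ?_, ?_⟩
  · simp only [mul_k, inv_k, pow_two, h1]; ring
  · simp only [a0_mul, a0_inv, pow_two, h2]; ring
  · simp only [b0_mul, b0_inv, pow_two, h3]; ring
  · simp only [lam_mul, lam_inv, h4, mul_k, inv_k, h1, a0_mul, a0_inv, h2, b0_mul, b0_inv, h3,
      pow_two]
    push_cast; ring

variable {P : Set (Gp D)}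

lemma caseA_aux (hP : IsCone P) (hmax : IsMax P) (h : Gp D) (hk : h.k ≠ 0) (hno : h ∉ P) :
    ∃ y ∈ CA h, y⁻¹ ∈ P := by
  by_contra hcon
  push Not at hcon
  refine hno (extend hP hmax (C := CA h) (fun a ha b hb => CA_mul ha hb)
    (fun a ha x => CA_conj ha x) (fun a ha x => CA_wa ha x) ?_ hcon ?_ (CA_self h))
  · intro x hx y hy s
    right; right
    refine ⟨s * x * s⁻¹, hP.conj' hx s, (s * x * s⁻¹)⁻¹ * ((s⁻¹ * (x * y) * s)⁻¹ * (x * y) ^ 2),
      ?_, by group⟩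
    obtain ⟨n, hn, h1, h2, h3, h4⟩ := hy
    refine ⟨n, hn, ?_, ?_, ?_, ?_⟩
    · simp only [mul_k, inv_k, pow_two, h1]; ring
    · simp only [a0_mul, a0_inv, pow_two, h2]; ring
    · simp only [b0_mul, b0_inv, pow_two, h3]; ring
    · simp only [lam_mul, lam_inv, h4, mul_k, inv_k, h1, a0_mul, a0_inv, h2, b0_mul, b0_inv, h3,
        pow_two]
      push_cast; ring
  · rintro ⟨n, hn, h1, -⟩
    rw [one_k] at h1
    have : (n : ℤ) ≠ 0 := by positivity
    rcases mul_eq_zero.1 h1.symm with h | h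
    · exact this h
    · exact hk h

lemma lam_of_V {x h z : Gp D} {q : ℚ} (h1 : (x.k : ℚ) = q * h.k) (h2 : x.a0 = q * h.a0)
    (h3 : x.b0 = q * h.b0) : lam x z = q * lam h z := by
  simp only [lam, h1, h2, h3]; ring

lemma lam_pow (h y : Gp D) (m : ℕ) : lam h (y ^ m) = m * lam h y := by
  simp only [lam, pow_A, pow_B, pow_C]; ring

lemma caseA (hP : IsCone P) (hmax : IsMax P) (h : Gp D) (hk : h.k ≠ 0) : h ∈ P ∨ h⁻¹ ∈ P := by
  by_contra hcon
  push Not at hcon
  obtain ⟨y, ⟨n, hn, h1, h2, h3, h4⟩, hyP⟩ := caseA_aux hP hmax h hk hcon.1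
  obtain ⟨w, ⟨m, hm, g1, g2, g3, g4⟩, hwP⟩ := caseA_aux hP hmax h⁻¹
    (by rw [inv_k]; omega) hcon.2
  rw [inv_k] at g1
  rw [a0_inv] at g2
  rw [b0_inv] at g3
  have g4' : lam h w = - (m * lam h h) := by
    have e1 : lam h⁻¹ w = - lam h w := by
      simp only [lam, inv_k, a0_inv, b0_inv]; push_cast; ring
    have e2 : lam h⁻¹ h⁻¹ = lam h h := by
      rw [lam_inv]; simp only [lam, inv_k, a0_inv, b0_inv]; push_cast; ring
    rw [e1, e2] at g4
    linarith
  -- `(w⁻¹)^n` and `y^m` are conjugate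
  have hmem : (w⁻¹) ^ n ∈ P := hP.pow hwP n hn
  obtain ⟨s, hs⟩ := conj_crit ((w⁻¹) ^ n) (y ^ m)
    (by
      rw [pow_k, inv_k, g1]
      have e1 : (n : ℤ) ≠ 0 := by positivity
      have e2 : (m : ℤ) ≠ 0 := by positivity
      have : (n : ℤ) * -(m * -h.k) = n * m * h.k := by ring
      rw [this]
      exact mul_ne_zero (mul_ne_zero e1 e2) hk)
    (by rw [pow_k, pow_k, inv_k, g1, h1]; ring)
    (by rw [pow_a0, pow_a0, a0_inv, g2, h2]; ring)
    (by rw [pow_b0, pow_b0, b0_inv, g3, h3]; ring)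
    (by
      have q1 : ∀ z, lam ((w⁻¹) ^ n) z = (n * m : ℚ) * lam h z := by
        intro z
        apply lam_of_V
        · rw [pow_k, inv_k, g1]; push_cast; ring
        · rw [pow_a0, a0_inv, g2]; ring
        · rw [pow_b0, b0_inv, g3]; ring
      rw [q1, q1, lam_pow, lam_pow, lam_inv, h4, g4']
      ring)
  have hy2 : y ^ m ∈ P := by
    rw [hs]; exact hP.conj' hmem s
  have hy3 : (y ^ m)⁻¹ ∈ P := by
    rw [← inv_pow]; exact hP.pow hyP m hm
  exact hP.not_both hy2 hy3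

end outside

/-! ### Elements of the Heisenberg part -/

section inside

variable {P : Set (Gp D)}

lemma Cl_inv_notMem (hP : IsCone P) {y : Gp D} (hy : y ∈ Cl D P) : y⁻¹ ∉ P := by
  obtain ⟨a, b, c, f, f2, rfl, hf, hm⟩ := hy
  intro h
  rw [u_inv] at h
  have := U2 hP h hf
  apply hP.not_both hm
  rw [u_inv]
  convert this using 2 <;> ring

lemma mem_Cl {x : Gp D} (hx : x ∈ P) (hk : x.k = 0) : x ∈ Cl D P :=
  ⟨x.a, x.b, x.c, 1, 1, eq_u x hk, Mlt.one, by
    rw [one_mul, one_mul, one_mul, ← eq_u x hk]; exact hx⟩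

lemma Cl_subset (hP : IsCone P) (hmax : IsMax P) : Cl D P ⊆ P := by
  refine extend hP hmax (fun a ha b hb => Cl.mul hP ha hb) ?_ (fun a ha x => Cl.wa hP ha x)
    ?_ (fun y hy => Cl_inv_notMem hP hy) ?_
  · intro a ha x
    have := Cl.conj' hP ha x⁻¹
    simpa using this
  · intro x hx y hy s
    by_cases hk : x.k = 0
    · right; left
      exact Cl.wa hP (Cl.mul hP (mem_Cl hx hk) hy) s
    · left
      have hyk : y.k = 0 := by
        obtain ⟨a, b, c, f, f2, rfl, hf, hm⟩ := hy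
        rfl
      have hxy : (x * y).k ≠ 0 := by rw [mul_k, hyk]; simpa using hk
      have hmem : x * y ∈ P := by
        rcases caseA hP hmax (x * y) hxy with h | h
        · exact h
        · exfalso
          have := hP.mul _ h _ hx
          apply Cl_inv_notMem hP hy
          have e : (x * y)⁻¹ * x = y⁻¹ := by group
          rwa [e] at this
      exact hP.wa _ hmem s
  · rintro ⟨a, b, c, f, f2, he, hf, hm⟩
    have e1 : (0 : R) = a := congrArg Gp.a he
    have e2 : (0 : R) = b := congrArg Gp.b he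
    have e3 : (0 : R) = c := congrArg Gp.c he
    subst e1; subst e2; subst e3
    simp only [mul_zero] at hm
    exact hP.one hm

/-- The set of multiples of `u a b c`. -/
def DU (D : RingData R) (a b c : R) : Set (Gp D) :=
  {x | ∃ f f2 z : R, Mlt D f f2 ∧ Sat D a b z ∧ x = u D (f * a) (f * b) (f2 * c + z)}

lemma DU_self (a b c : R) : u D a b c ∈ DU D a b c :=
  ⟨1, 1, 0, Mlt.one, Lin.sat ⟨0, 0, by ring⟩, by simp⟩

lemma caseB [IsDomain R] (hP : IsCone P) (hmax : IsMax P) (a b c : R)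
    (h1 : u D a b c ≠ 1) (hno : (u D a b c)⁻¹ ∉ P) : u D a b c ∈ P := by
  have hcl : ∀ {a b c : R}, u D a b c ∈ Cl D P → u D a b c ∈ P :=
    fun h => Cl_subset hP hmax h
  refine extend hP hmax (C := DU D a b c) ?_ ?_ ?_ ?_ ?_ ?_ (DU_self a b c)
  · rintro x ⟨f, f2, z, hf, hz, rfl⟩ y ⟨g, g2, z', hg, hz', rfl⟩
    refine ⟨f + g, f2 + g2, z + z', hf.add hg, hz.add hz', ?_⟩
    rw [u_mul]
    ext
    · rfl
    · simp; ring
    · simp; ring
    · simp; ring
  · rintro x ⟨f, f2, z, hf, hz, rfl⟩ s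
    rw [conj_u']
    refine ⟨D.e (-s.k) * f, D.e (-s.k) ^ 2 * f2, D.e (-s.k) ^ 2 * z +
      (2 * D.e (-s.k) * (s⁻¹.a * (f * b) - s⁻¹.b * (f * a))), hf.mulE _, (hz.mul _).add
        (Lin.sat ⟨-(2 * D.e (-s.k) * s⁻¹.b * f), 2 * D.e (-s.k) * s⁻¹.a * f, by ring⟩), ?_⟩
    ext
    · rfl
    · simp; ring
    · simp; ring
    · simp; ring
  · rintro x ⟨f, f2, z, hf, hz, rfl⟩ s
    rw [conj_u', u_inv, u_sq, u_mul]
    refine ⟨(2 - D.e (-s.k)) * f, (2 - D.e (-s.k) ^ 2) * f2, (2 - D.e (-s.k) ^ 2) * z +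
      (-(2 * D.e (-s.k) * (s⁻¹.a * (f * b) - s⁻¹.b * (f * a)))), hf.mulW _, (hz.mul _).add
        (Lin.sat ⟨(2 * D.e (-s.k) * s⁻¹.b * f), -(2 * D.e (-s.k) * s⁻¹.a * f), by ring⟩), ?_⟩
    ext
    · rfl
    · simp; ring
    · simp; ring
    · simp; ring
  · intro x hx y hy s
    right; right
    -- `(xy)^{-s} (xy)^2 = (Q conjugated) * (y^{-s} y^2)`
    set Q := (s⁻¹ * x * s)⁻¹ * x * (y * x * y⁻¹) with hQ
    have hQP : Q ∈ P := by
      by_cases hk : x.k = 0
      · obtain ⟨f, f2, z, hf, hz, rfl⟩ := hy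
        obtain ⟨a', b', c', rfl⟩ : ∃ a' b' c', x = u D a' b' c' := ⟨_, _, _, eq_u x hk⟩
        have hw : Mlt D (2 - D.e (-s.k)) (2 - D.e (-s.k) ^ 2) := by
          simpa using Mlt.mulW (-s.k) (Mlt.one (D := D))
        have m1 := U2 hP hx hw
        have l1 : Lin a' b' (-(2 * D.e (-s.k) * (s⁻¹.a * b' - s⁻¹.b * a')) +
            2 * (f * a * b' - f * b * a')) :=
          ⟨2 * D.e (-s.k) * s⁻¹.b - 2 * (f * b), -(2 * D.e (-s.k) * s⁻¹.a) + 2 * (f * a), by ring⟩
        have l2 := (l1.sat (D := D)).scale hw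
        have m2 := hcl (Cl.addSat hP (mem_Cl m1 rfl) l2)
        rw [hQ, conj_u', conj_u, u_inv, u_mul, u_mul]
        convert m2 using 1
        ext
        · rfl
        · simp [D.e_zero]; ring
        · simp [D.e_zero]; ring
        · simp [D.e_zero]; ring
      · have hyk : y.k = 0 := by
          obtain ⟨f, f2, z, hf, hz, rfl⟩ := hy
          rfl
        obtain ⟨w, hw⟩ := conj_crit x Q hk
          (by simp only [hQ, mul_k, inv_k]; ring)
          (by simp only [hQ, a0_mul, a0_inv]; ring)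
          (by simp only [hQ, b0_mul, b0_inv]; ring)
          (by
            simp only [hQ, lam_mul, lam_inv, mul_k, inv_k, a0_mul, a0_inv, b0_mul, b0_inv]
            push_cast; ring)
        rw [hw]
        exact hP.conj' hx w
    refine ⟨(s⁻¹ * y * s)⁻¹ * Q * (s⁻¹ * y * s), hP.conj _ hQP _, (s⁻¹ * y * s)⁻¹ * y ^ 2, ?_, ?_⟩
    · obtain ⟨f, f2, z, hf, hz, rfl⟩ := hy
      rw [conj_u', u_inv, u_sq, u_mul]
      refine ⟨(2 - D.e (-s.k)) * f, (2 - D.e (-s.k) ^ 2) * f2, (2 - D.e (-s.k) ^ 2) * z +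
        (-(2 * D.e (-s.k) * (s⁻¹.a * (f * b) - s⁻¹.b * (f * a)))), hf.mulW _, (hz.mul _).add
          (Lin.sat ⟨(2 * D.e (-s.k) * s⁻¹.b * f), -(2 * D.e (-s.k) * s⁻¹.a * f), by ring⟩), ?_⟩
      ext
      · rfl
      · simp; ring
      · simp; ring
      · simp; ring
    · rw [hQ, pow_two, pow_two]; group
  · rintro y ⟨f, f2, z, hf, hz, rfl⟩ hy
    apply hno
    rw [u_inv] at hy
    have hz2 : Sat D (-(f * a)) (-(f * b)) z := by
      have := hz.scale hf
      obtain ⟨g, g2, hg, hu, α, β, hl⟩ := this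
      exact ⟨g, g2, hg, hu, -α, -β, by rw [hl]; ring⟩
    have h2 := hcl (Cl.addSat hP (mem_Cl hy rfl) hz2)
    rw [u_inv]
    apply hcl
    apply Cl.unscale (f := f) (f2 := f2) _ hf
    apply mem_Cl _ rfl
    convert h2 using 1
    ext
    · rfl
    · simp
    · simp
    · simp
  · rintro ⟨f, f2, z, hf, hz, he⟩
    have e1 : 0 = f * a := congrArg Gp.a he
    have e2 : 0 = f * b := congrArg Gp.b he
    have e3 : 0 = f2 * c + z := congrArg Gp.c he
    have hf0 : f ≠ 0 := by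
      rintro rfl
      have := hf.pos.1
      simp at this
    have hf20 : f2 ≠ 0 := by
      rintro rfl
      have := hf.pos.2
      simp at this
    have ha : a = 0 := (mul_eq_zero.1 e1.symm).resolve_left hf0
    have hb : b = 0 := (mul_eq_zero.1 e2.symm).resolve_left hf0
    subst ha; subst hb
    have hz0 := hz.zero
    subst hz0
    rw [add_zero] at e3
    have hc : c = 0 := (mul_eq_zero.1 e3.symm).resolve_left hf20
    subst hc
    exact h1 rfl

end inside

/-- Every maximal weakly abelian cone of `Gp D` is total. -/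
theorem max_total [IsDomain R] (P : Set (Gp D)) (hP : IsCone P) (hmax : IsMax P) (g : Gp D) :
    g = 1 ∨ g ∈ P ∨ g⁻¹ ∈ P := by
  by_cases hk : g.k = 0
  · obtain ⟨a, b, c, rfl⟩ : ∃ a b c, g = u D a b c := ⟨_, _, _, eq_u g hk⟩
    by_cases h1 : u D a b c = 1
    · exact Or.inl h1
    · by_cases hno : (u D a b c)⁻¹ ∈ P
      · exact Or.inr (Or.inr hno)
      · exact Or.inr (Or.inl (caseB hP hmax a b c h1 hno))
  · exact Or.inr (caseA hP hmax g hk)

end Pool.Agent.H347W
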